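import Mathlib

set_option autoImplicit false

open Finset

namespace Pool.Agent.Results.MP_6677ae_co.Counter

/-- One round of the spread rule. -/
noncomputable def spread {n : ℕ} (E : Finset (Finset (Fin n))) (p : ℝ) (F : Finset (Fin n)) :
    Finset (Fin n) :=
  F ∪ (E.filter (fun e => ⌈p * e.card⌉₊ ≤ (e ∩ F).card)).biUnion id

/-- Burning set after `r` rounds when `u r` is chosen in round `r + 1`. -/
noncomputable def fire {n : ℕ} (E : Finset (Finset (Fin n))) (p : ℝ) (u : ℕ → Fin n) :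
    ℕ → Finset (Fin n)
  | 0 => ∅
  | r + 1 => insert (u r) (spread E p (fire E p u r))

noncomputable def burn {n : ℕ} (E : Finset (Finset (Fin n))) (p : ℝ) : ℕ :=
  sInf {k | ∃ u : ℕ → Fin n, (∀ r < k, u r ∉ fire E p u r) ∧ fire E p u k = univ}

noncomputable def lazyBurn {n : ℕ} (E : Finset (Finset (Fin n))) (p : ℝ) : ℕ :=
  sInf {k | ∃ S : Finset (Fin n), S.card = k ∧ ∃ r, (spread E p)^[r] S = univ}

def E5 : Finset (Finset (Fin 5)) := {{0, 1}, {1, 2}, {2, 3}, {3, 4}, {0, 1, 2, 3, 4}}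

def sp (t : ℕ) (F : Finset (Fin 5)) : Finset (Fin 5) :=
  F ∪ (E5.filter (fun e => (if e.card = 2 then 1 else t) ≤ (e ∩ F).card)).biUnion id

lemma spread_eq (p : ℝ) (t : ℕ) (h2 : ⌈p * 2⌉₊ = 1) (h5 : ⌈p * 5⌉₊ = t) :
    spread E5 p = sp t := by
  funext F
  unfold spread sp
  congr 2
  refine filter_congr (fun e he => ?_)
  have : ∀ e ∈ E5, e.card = 2 ∨ e.card = 5 := by decide
  rcases this e he with h | h <;> simp [h, h2, h5]

lemma s1 : spread E5 (1 / 5) = sp 1 :=
  spread_eq _ _ (by rw [Nat.ceil_eq_iff] <;> norm_num) (by norm_num)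

lemma s2 : spread E5 (2 / 5) = sp 2 :=
  spread_eq _ _ (by rw [Nat.ceil_eq_iff] <;> norm_num) (by norm_num)

lemma lazy1 (p : ℝ) (t : ℕ) (h : spread E5 p = sp t) (h0 : sp t ∅ = ∅)
    (h1 : (sp t)^[4] {0} = univ) : lazyBurn E5 p = 1 := by
  apply IsLeast.csInf_eq
  rw [h]
  refine ⟨⟨{0}, rfl, 4, h1⟩, ?_⟩
  rintro k ⟨S, rfl, r, hr⟩
  by_contra hc
  obtain rfl : S = ∅ := card_eq_zero.1 (by omega)
  rw [Function.iterate_fixed h0] at hr
  exact absurd hr (by decide)

lemma b1 : burn E5 (1 / 5) ≤ 2 := by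
  refine Nat.sInf_le ⟨fun r => if r = 0 then 0 else 1, ?_, ?_⟩
  · intro r hr
    interval_cases r <;> simp only [fire, s1] <;> decide
  · simp only [fire, s1]; decide

lemma b2 : 3 ≤ burn E5 (2 / 5) := by
  refine le_csInf ⟨3, fun r => if r = 0 then 0 else if r = 1 then 2 else 3, ?_, ?_⟩ ?_
  · intro r hr
    interval_cases r <;> simp only [fire, s2] <;> decide
  · simp only [fire, s2]; decide
  · rintro k ⟨u, -, hu⟩
    by_contra hc
    have hk : k < 3 := by omega
    interval_cases k <;> simp only [fire, s2] at hu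
    · exact absurd hu (by decide)
    · generalize u 0 = a at hu
      revert a; decide
    · generalize u 0 = a at hu
      generalize u (0 + 1) = b at hu
      revert a b; decide

theorem result : ∃ (n : ℕ) (E : Finset (Finset (Fin n))) (p q : ℝ), 1 ≤ n ∧
    0 < p ∧ p < 1 ∧ 0 < q ∧ q < 1 ∧ lazyBurn E p = lazyBurn E q ∧ burn E p < burn E q := by
  refine ⟨5, E5, 1 / 5, 2 / 5, by norm_num, by norm_num, by norm_num, by norm_num, by norm_num,
    ?_, lt_of_le_of_lt b1 b2⟩
  rw [lazy1 _ _ s1 (by decide) (by decide), lazy1 _ _ s2 (by decide) (by decide)]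

end Pool.Agent.Results.MP_6677ae_co.Counter
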